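import Mathlib

set_option autoImplicit false

namespace Pool.Agent.Results.MP_a21721_al.Solution

abbrev M := Matrix (Fin 4) (Fin 4) (ZMod 7)

instance : Fact (Nat.Prime 7) := ⟨by norm_num⟩

def B : Subgroup Mˣ where
  carrier := {g | g.1.BlockTriangular id}
  mul_mem' := fun ha hb => ha.mul hb
  one_mem' := Matrix.blockTriangular_one
  inv_mem' := fun {g} hg => by
    letI := g.invertible
    show (g⁻¹).1.BlockTriangular id
    rw [Matrix.coe_units_inv]
    exact Matrix.blockTriangular_inv_of_blockTriangular hg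

theorem low (g : B) (i j : Fin 4) (h : j < i) : g.1.1 i j = 0 := g.2 h

def dg : B →* (Fin 4 → ZMod 7) where
  toFun g i := g.1.1 i i
  map_one' := by ext i; simp
  map_mul' g h := by
    ext i
    have hg := low g
    have hh := low h
    fin_cases i <;> simp [Matrix.mul_apply, Fin.sum_univ_four, hg, hh]

theorem pgrp : IsPGroup 7 dg.toHomUnits.ker := by
  rintro ⟨g, hg⟩
  refine ⟨1, Subtype.ext (Subtype.ext (Units.ext ?_))⟩
  have hd : ∀ i, g.1.1 i i = 1 := fun i => congrFun (congrArg Units.val hg) i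
  have hl := low g
  have e : g.1.1 - 1 = !![0, g.1.1 0 1, g.1.1 0 2, g.1.1 0 3; 0, 0, g.1.1 1 2, g.1.1 1 3;
      0, 0, 0, g.1.1 2 3; 0, 0, 0, 0] := by
    ext i j
    fin_cases i <;> fin_cases j <;> simp [hd, hl]
  have h4 : (g.1.1 - 1) ^ 4 = 0 := by
    rw [e]
    ext i j
    fin_cases i <;> fin_cases j <;> simp [pow_succ, Matrix.mul_apply, Fin.sum_univ_four]
  have h7 : (g.1.1 - 1) ^ 7 = 0 := pow_eq_zero_of_le (by norm_num) h4
  rw [sub_pow_char_of_commute _ (Commute.one_right _), one_pow, sub_eq_zero] at h7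
  simpa using h7

theorem solv : Group.IsSolvable B := by
  haveI := pgrp.isNilpotent
  exact solvable_of_ker_le_range dg.toHomUnits.ker.subtype dg.toHomUnits (by simp)

def a : B := ⟨⟨!![1, 0, 0, 0; 0, 3, 0, 0; 0, 0, 1, 0; 0, 0, 0, 5],
  !![1, 0, 0, 0; 0, 5, 0, 0; 0, 0, 1, 0; 0, 0, 0, 3], by decide, by decide⟩,
  fun i j => by revert i j; decide⟩

def c : B := ⟨⟨!![1, 0, 0, 6; 0, 1, 0, 0; 0, 0, 1, 0; 0, 0, 0, 1],
  !![1, 0, 0, 1; 0, 1, 0, 0; 0, 0, 1, 0; 0, 0, 0, 1], by decide, by decide⟩,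
  fun i j => by revert i j; decide⟩

def h : B := ⟨⟨!![1, 1, 5, 0; 0, 1, 1, 4; 0, 0, 1, 1; 0, 0, 0, 1],
  !![1, 6, 3, 1; 0, 1, 6, 4; 0, 0, 1, 6; 0, 0, 0, 1], by decide, by decide⟩,
  fun i j => by revert i j; decide⟩

theorem result : ∃ (H : Type) (_ : Group H), Group.IsSolvable H ∧ ∃ a c h : H,
    orderOf c = 7 ∧ orderOf a = 6 ∧ a⁻¹ * c * a = c ^ 5 ∧
    h * (a⁻¹ * h⁻¹ * a) * ((a ^ 2)⁻¹ * h * a ^ 2) = c := by
  refine ⟨B, inferInstance, solv, a, c, h, ?_, ?_, ?_, ?_⟩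
  · exact orderOf_eq_prime (by decide +kernel) (by decide +kernel)
  · rw [orderOf_eq_iff (by norm_num)]
    decide +kernel
  · decide +kernel
  · decide +kernel

end Pool.Agent.Results.MP_a21721_al.Solution
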